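import Mathlib

/-!
# Test fields: totally real abelian fields with split primes (definitions)
-/

set_option autoImplicit false

namespace Pool.Agent.K9h41.LD

open NumberField

/-- The prime number `r` splits completely in `k`: there are `[k : ℚ]` prime ideals of `k` above
`r`. -/
def SplitsCompletely (k : Type) [Field k] [NumberField k] (r : ℕ) : Prop :=
  ((Ideal.span {(r : ℤ)}).primesOver (𝓞 k)).ncard = Module.finrank ℚ k

/-- `k` is a totally real abelian number field in which all the prime numbers in `S` split
completely, and no subfield of `k` but `ℚ` can be embedded in `F₀`. -/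
structure TestField (S : Set ℕ) (F₀ k : Type) [Field F₀] [Field k] [NumberField k] : Prop where
  galois : IsGalois ℚ k
  comm : ∀ g h : k ≃ₐ[ℚ] k, g * h = h * g
  real : IsTotallyReal k
  split : ∀ r ∈ S, SplitsCompletely k r
  disjoint : ∀ T : IntermediateField ℚ k, Nonempty (T →+* F₀) → T = ⊥

end Pool.Agent.K9h41.LD
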