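import Mathlib
import Pool.Agent.K9h41.DC.As

/-!
# Deligne's conjecture and a general relation between permutation characters
-/

set_option autoImplicit false
set_option linter.unusedSectionVars false

namespace Pool.Agent.K9h41.LD

open NumberField NumberField.InfinitePlace IntermediateField IsDedekindDomain Filter Topology
  Pool.Agent.R389 Pool.Agent.K4H74.ST Pool.Agent.K4H74.SC Pool.Agent.K9h41.DC

variable {K : Type} [Field K] [NumberField K] [IsGalois ℚ K]
variable {E : Type} [Field E] [CharZero E] (D : MotiveData E)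

/-- Deligne's conjecture and a relation between the permutation characters -/
theorem assemble_gen {φ : K →ₐ[ℚ] ℂ} {V : Subgroup (K ≃ₐ[ℚ] K)} {k : Type} [Field k]
    [NumberField k] (hk : Match φ V k) {m : ℤ} [Fintype (Subgroup (K ≃ₐ[ℚ] K))]
    {c : Subgroup (K ≃ₐ[ℚ] K) → ℤ}
    (hc2 : ∀ g : K ≃ₐ[ℚ] K, ∑ U, (c U : ℂ) * ind U (fun _ => (1 : ℂ)) g
      = ind V (fun _ => (1 : ℂ)) g)
    (h : ∀ U : Subgroup (K ≃ₐ[ℚ] K), c U ≠ 0 →
      ∃ e : E, e ≠ 0 ∧ DeligneWith D (fixedField U) m e) :
    ∃ e : E, e ≠ 0 ∧ DeligneWith D k m e := by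
  classical
  have hc3' : ∀ g : K ≃ₐ[ℚ] K, ∑ U, (c U : ℂ) * fx U g = fx V g := by
    intro g
    have := hc2 g
    rw [ind_one] at this
    rw [← this]
    exact Finset.sum_congr rfl fun U _ => by rw [ind_one]
  have hc3 : ∀ g : K ≃ₐ[ℚ] K, ∑ U, c U * (fx U g : ℤ) = fx V g := fun g => by
    exact_mod_cast hc3' g
  have hc4 : ∀ g : K ≃ₐ[ℚ] K, ∏ U, sg U g ^ c U = sg V g := prod_sg c V hc3'
  have h' : ∀ U : Subgroup (K ≃ₐ[ℚ] K), ∃ (e : E) (δ : ℂ), e ≠ 0 ∧ (c U ≠ 0 →
      δ ^ 2 = (discr (fixedField U) : ℂ) ∧ ∀ ι : E →+* ℂ, HasLValue D ι (fixedField U) m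
        (ι e * ((2 * Real.pi * Complex.I) ^ (m * (D.n * Module.finrank ℚ (fixedField U) : ℕ)) *
      (D.period ι m ^ (nrRealPlaces (fixedField U) + nrComplexPlaces (fixedField U)) *
        D.period ι (m + 1) ^ nrComplexPlaces (fixedField U) * δ ^ D.n)))) := by
    intro U
    by_cases hU : c U = 0
    · exact ⟨1, 1, one_ne_zero, fun h0 => absurd hU h0⟩
    · obtain ⟨e, he, δ, h1, h2⟩ := h U hU
      exact ⟨e, δ, he, fun _ => ⟨h1, h2⟩⟩
  choose e δ he hδ using h'
  obtain ⟨q, δ', hq0, hδ', hprod⟩ := disc_rel hk hc4 (fun U hU => (hδ U hU).1)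
  -- the numerical relations
  have hdeg : ∑ U, c U * (Module.finrank ℚ (fixedField U) : ℤ) = Module.finrank ℚ k := by
    rw [← hk.deg, ← hc3 1]
    exact Finset.sum_congr rfl fun U _ => by rw [(match_fixed φ U).deg]
  obtain ⟨g, hg⟩ := exists_cc φ
  have hreal : ∑ U, c U * (nrRealPlaces (fixedField U) : ℤ) = nrRealPlaces k := by
    rw [← hk.real g hg, ← hc3 g]
    exact Finset.sum_congr rfl fun U _ => by rw [(match_fixed φ U).real g hg]
  have hcomp : ∑ U, c U * (nrComplexPlaces (fixedField U) : ℤ) = nrComplexPlaces k := by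
    have h1 : ∀ U : Subgroup (K ≃ₐ[ℚ] K), c U * (Module.finrank ℚ (fixedField U) : ℤ)
        = c U * (nrRealPlaces (fixedField U) : ℤ)
          + 2 * (c U * (nrComplexPlaces (fixedField U) : ℤ)) := by
      intro U
      rw [← card_add_two_mul_card_eq_rank (fixedField U)]
      push_cast
      ring
    have h2 := hdeg
    rw [Finset.sum_congr rfl (fun U _ => h1 U), Finset.sum_add_distrib, hreal, ← Finset.mul_sum,
      ← card_add_two_mul_card_eq_rank k] at h2
    push_cast at h2
    omega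
  have hrc : ∑ U, c U * ((nrRealPlaces (fixedField U) + nrComplexPlaces (fixedField U) : ℕ) : ℤ)
      = ((nrRealPlaces k + nrComplexPlaces k : ℕ) : ℤ) := by
    push_cast
    simp only [mul_add]
    rw [Finset.sum_add_distrib, hreal, hcomp]
  refine ⟨(∏ U, e U ^ c U) * (q : E) ^ D.n, ?_, δ', hδ', fun ι => ?_⟩
  · refine mul_ne_zero (Finset.prod_ne_zero_iff.mpr fun U _ => zpow_ne_zero _ (he U))
      (pow_ne_zero _ (by exact_mod_cast hq0))
  · have h2 : ∀ U : Subgroup (K ≃ₐ[ℚ] K), ∃ f : ℂ → ℂ, c U ≠ 0 →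
        (∀ s : ℂ, (m : ℝ) ≤ s.re → MeromorphicAt f s) ∧
        (∀ s : ℂ, 1 + (D.w : ℝ) / 2 < s.re →
          HasProd (fun v => eulerFactor D ι (fixedField U) v s) (f s)) ∧
        Tendsto f (𝓝[≠] (m : ℂ)) (𝓝 (ι (e U) *
          ((2 * Real.pi * Complex.I) ^ (m * (D.n * Module.finrank ℚ (fixedField U) : ℕ)) *
      (D.period ι m ^ (nrRealPlaces (fixedField U) + nrComplexPlaces (fixedField U)) *
        D.period ι (m + 1) ^ nrComplexPlaces (fixedField U) * δ U ^ D.n)))) := by
      intro U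
      by_cases hU : c U = 0
      · exact ⟨0, fun h0 => absurd hU h0⟩
      · obtain ⟨f, hf⟩ := (hδ U hU).2 ι
        exact ⟨f, fun _ => hf⟩
    choose f hf using h2
    refine ⟨fun s => ∏ U, f U s ^ c U, fun s hs => ?_, fun s hs => ?_, ?_⟩
    · refine MeromorphicAt.fun_prod fun U _ => ?_
      by_cases hU : c U = 0
      · simp only [hU, zpow_zero]
        exact MeromorphicAt.const 1 s
      · exact ((hf U hU).1 s hs).fun_zpow _
    · have h3 : ∏ U, f U s ^ c U = Complex.exp (lg D ι k s) := by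
        rw [← lg_rel D hk hc2 ι hs, Complex.exp_sum]
        refine Finset.prod_congr rfl fun U _ => ?_
        by_cases hU : c U = 0
        · rw [hU]
          simp
        · rw [((hf U hU).2.1 s hs).unique (hasProd_euler D ι hs), ← Complex.exp_int_mul]
      change HasProd _ (∏ U, f U s ^ c U)
      rw [h3]
      exact hasProd_euler D ι hs
    · have h3 : (2 * Real.pi * Complex.I : ℂ) ≠ 0 := Complex.two_pi_I_ne_zero
      generalize (2 * Real.pi * Complex.I : ℂ) = T at hf h3 ⊢
      have hδ0 : ∀ U, c U ≠ 0 → δ U ≠ 0 := by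
        intro U hU h0
        have h1 := (hδ U hU).1
        rw [h0, zero_pow two_ne_zero] at h1
        exact discr_ne_zero (fixedField U) (by exact_mod_cast h1.symm)
      have h4 : Tendsto (fun s => ∏ U, f U s ^ c U) (𝓝[≠] (m : ℂ)) (𝓝 (∏ U, (ι (e U) *
          (T ^ (m * (D.n * Module.finrank ℚ (fixedField U) : ℕ)) *
      (D.period ι m ^ (nrRealPlaces (fixedField U) + nrComplexPlaces (fixedField U)) *
        D.period ι (m + 1) ^ nrComplexPlaces (fixedField U) * δ U ^ D.n))) ^ c U)) := by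
        refine tendsto_finsetProd _ fun U _ => ?_
        by_cases hU : c U = 0
        · simp only [hU, zpow_zero]
          exact tendsto_const_nhds
        · refine ((hf U hU).2.2).zpow₀ _ (Or.inl ?_)
          refine mul_ne_zero ?_ (mul_ne_zero (zpow_ne_zero _ h3) (mul_ne_zero (mul_ne_zero
            (pow_ne_zero _ (period_ne D ι m)) (pow_ne_zero _ (period_ne D ι (m + 1))))
            (pow_ne_zero _ (hδ0 U hU))))
          rw [map_ne_zero]
          exact he U
      convert h4 using 2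
      simp only [mul_zpow]
      rw [Finset.prod_mul_distrib, Finset.prod_mul_distrib, Finset.prod_mul_distrib,
        Finset.prod_mul_distrib, prod_zpow_nat _ (period_ne D ι m) _ _ hrc,
        prod_zpow_nat _ (period_ne D ι (m + 1)) _ _ hcomp]
      have h5 : ∏ U, (T ^ (m * (D.n * Module.finrank ℚ (fixedField U) : ℕ))) ^ c U
          = T ^ (m * (D.n * Module.finrank ℚ k : ℕ)) := by
        simp only [← zpow_mul]
        rw [prod_zpow _ h3]
        congr 1
        push_cast
        rw [← hdeg, Finset.mul_sum, Finset.mul_sum]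
        exact Finset.sum_congr rfl fun U _ => by ring
      have h6 : ∏ U, (δ U ^ D.n) ^ c U = ((q : ℂ) * δ') ^ D.n := by
        rw [← hprod, ← Finset.prod_pow]
        refine Finset.prod_congr rfl fun U _ => ?_
        rw [← zpow_natCast, ← zpow_natCast, ← zpow_mul, ← zpow_mul, mul_comm]
      rw [h5, h6, map_mul, map_prod, map_pow, map_ratCast, mul_pow]
      simp only [map_zpow₀]
      ring

end Pool.Agent.K9h41.LD
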