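import Mathlib
import Pool.Agent.K9h41.LD.Df

/-!
# Subfields of cyclotomic fields with a given elementary abelian Galois group (leaf GAL)
-/

set_option autoImplicit false

namespace Pool.Agent.K9h41.LD

open NumberField

/-- A surjective homomorphism of `(ZMod l)ˣ` onto `ZMod n`, `n ∣ l - 1`, which is trivial on the
elements `u` with `u ^ ((l - 1) / n) = 1`. -/
private theorem exists_char (l n : ℕ) (hl : l.Prime) (hd : n ∣ l - 1) :
    ∃ ψ : (ZMod l)ˣ →* Multiplicative (ZMod n), Function.Surjective ψ ∧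
      ∀ u : (ZMod l)ˣ, u ^ ((l - 1) / n) = 1 → ψ u = 1 := by
  have : Fact l.Prime := ⟨hl⟩
  have hcard : Nat.card (ZMod l)ˣ = l - 1 := by
    rw [Nat.card_eq_fintype_card, ZMod.card_units]
  have hcyc : IsCyclic (ZMod l)ˣ := inferInstance
  have hd' : n ∣ Nat.card (ZMod l)ˣ := hcard ▸ hd
  let e := zmodCyclicMulEquiv hcyc
  let c : Multiplicative (ZMod (Nat.card (ZMod l)ˣ)) →* Multiplicative (ZMod n) :=
    AddMonoidHom.toMultiplicative (ZMod.castHom hd' (ZMod n)).toAddMonoidHom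
  have hc : ∀ x, c x = Multiplicative.ofAdd (ZMod.castHom hd' (ZMod n) x.toAdd) := fun x => rfl
  refine ⟨c.comp e.symm.toMonoidHom, ?_, ?_⟩
  · intro y
    obtain ⟨z, hz⟩ := ZMod.castHom_surjective hd' y.toAdd
    refine ⟨e (Multiplicative.ofAdd z), ?_⟩
    simp only [MonoidHom.coe_comp, MulEquiv.toMonoidHom_eq_coe, MonoidHom.coe_coe,
      Function.comp_apply, MulEquiv.symm_apply_apply, hc, toAdd_ofAdd, hz, ofAdd_toAdd]
  · intro u hu
    have h1 : (e.symm u) ^ ((l - 1) / n) = 1 := by rw [← map_pow, hu, map_one]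
    obtain ⟨x, hx⟩ : ∃ x, e.symm u = x := ⟨_, rfl⟩
    simp only [MonoidHom.coe_comp, MulEquiv.toMonoidHom_eq_coe, MonoidHom.coe_coe,
      Function.comp_apply]
    rw [hx] at h1 ⊢
    rw [hc]
    have hN : 0 < Nat.card (ZMod l)ˣ := Nat.card_pos
    have : NeZero (Nat.card (ZMod l)ˣ) := ⟨hN.ne'⟩
    obtain ⟨k, hk⟩ := hd'
    have hn0 : 0 < n := Nat.pos_of_ne_zero (by rintro rfl; rw [Nat.zero_mul] at hk; exact hN.ne' hk)
    have hk0 : 0 < k := Nat.pos_of_ne_zero (by rintro rfl; rw [Nat.mul_zero] at hk; exact hN.ne' hk)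
    have hk' : (l - 1) / n = k := by
      rw [← hcard, hk, Nat.mul_div_cancel_left _ hn0]
    rw [hk'] at h1
    have h2 : (k : ℕ) • x.toAdd = 0 := by
      have := congrArg Multiplicative.toAdd h1
      simpa using this
    have h3 : ((k * (x.toAdd).val : ℕ) : ZMod (Nat.card (ZMod l)ˣ)) = 0 := by
      rw [Nat.cast_mul, ZMod.natCast_zmod_val]
      rwa [nsmul_eq_mul] at h2
    rw [ZMod.natCast_eq_zero_iff] at h3
    have h4 : n ∣ (x.toAdd).val := by
      have h5 : k * n ∣ k * (x.toAdd).val := by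
        have h6 : k * n = Nat.card (ZMod l)ˣ := by rw [mul_comm]; exact hk.symm
        rw [h6]; exact h3
      exact Nat.dvd_of_mul_dvd_mul_left hk0 h5
    have h7 : ZMod.castHom ⟨k, hk⟩ (ZMod n) x.toAdd = 0 := by
      rw [ZMod.castHom_apply, ← ZMod.natCast_val, ZMod.natCast_eq_zero_iff]
      exact h4
    rw [h7]; rfl

/-- The fixed field of the kernel of a homomorphism onto an abelian group. -/
private theorem exists_fixed {F L A : Type} [Field F] [Field L] [Algebra F L]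
    [FiniteDimensional F L] [IsGalois F L] [CommGroup A] (Φ : (L ≃ₐ[F] L) →* A)
    (hΦ : Function.Surjective Φ) (hcomm : ∀ g h : L ≃ₐ[F] L, g * h = h * g) :
    ∃ K : IntermediateField F L, IsGalois F K ∧ (∀ g h : K ≃ₐ[F] K, g * h = h * g) ∧
      Module.finrank F K = Nat.card A ∧
      (∃ φ : (K ≃ₐ[F] K) →* A, Function.Surjective φ) ∧
      ∀ g : L ≃ₐ[F] L, Φ g = 1 → ∀ x ∈ K, g x = x := by
  refine ⟨IntermediateField.fixedField Φ.ker, inferInstance, ?_, ?_, ?_, ?_⟩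
  · intro g h
    obtain ⟨g', rfl⟩ := (IsGalois.normalAutEquivQuotient Φ.ker).surjective g
    obtain ⟨h', rfl⟩ := (IsGalois.normalAutEquivQuotient Φ.ker).surjective h
    obtain ⟨g'', rfl⟩ := QuotientGroup.mk_surjective g'
    obtain ⟨h'', rfl⟩ := QuotientGroup.mk_surjective h'
    rw [← map_mul, ← map_mul, ← QuotientGroup.mk_mul, ← QuotientGroup.mk_mul, hcomm g'' h'']
  · rw [IntermediateField.finrank_eq_fixingSubgroup_index,
      IntermediateField.fixingSubgroup_fixedField, Subgroup.index_ker,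
      MonoidHom.range_eq_top.mpr hΦ]
    exact Nat.card_congr (Subgroup.topEquiv (G := A)).toEquiv
  · refine ⟨(QuotientGroup.quotientKerEquivOfSurjective Φ hΦ).toMonoidHom.comp
      (IsGalois.normalAutEquivQuotient Φ.ker).symm.toMonoidHom, ?_⟩
    intro y
    obtain ⟨u, hu⟩ := (QuotientGroup.quotientKerEquivOfSurjective Φ hΦ).surjective y
    refine ⟨IsGalois.normalAutEquivQuotient Φ.ker u, ?_⟩
    simp only [MonoidHom.coe_comp, MulEquiv.toMonoidHom_eq_coe, MonoidHom.coe_coe,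
      Function.comp_apply, MulEquiv.symm_apply_apply, hu]
  · intro g hg x hx
    exact hx ⟨g, MonoidHom.mem_ker.mpr hg⟩

/-- Let `l i` be different prime numbers and `n i` prime numbers which divide `l i - 1`. The field
`K`: the fixed field in `ℚ(ζ_f)`, `f = ∏ l i`, of the automorphisms `ζ ↦ ζ ^ a` such that
`a ^ ((l i - 1) / n i) ≡ 1` modulo `l i` for all `i`. Its Galois group is `∏ ZMod (n i)`. -/
theorem exists_sub {ι : Type} [Fintype ι] (l n : ι → ℕ) (hl : ∀ i, (l i).Prime)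
    (hinj : Function.Injective l) (hn : ∀ i, (n i).Prime) (hd : ∀ i, n i ∣ l i - 1) :
    ∃ (K : IntermediateField ℚ (CyclotomicField (∏ i, l i) ℚ)), IsGalois ℚ K ∧
      (∀ g h : K ≃ₐ[ℚ] K, g * h = h * g) ∧ Module.finrank ℚ K = ∏ i, n i ∧
      (∃ φ : (K ≃ₐ[ℚ] K) →* Multiplicative (∀ i, ZMod (n i)), Function.Surjective φ) ∧
      ∀ r : ℕ, r.Prime → (∀ i, r ≠ l i) → (∀ i, (r : ZMod (l i)) ^ ((l i - 1) / n i) = 1) →
        ∀ g : CyclotomicField (∏ i, l i) ℚ ≃ₐ[ℚ] CyclotomicField (∏ i, l i) ℚ,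
          (∀ ζ, ζ ^ (∏ i, l i) = 1 → g ζ = ζ ^ r) → ∀ x ∈ K, g x = x := by
  classical
  have hf0 : (∏ i, l i) ≠ 0 := Finset.prod_ne_zero_iff.mpr fun i _ => (hl i).ne_zero
  have : NeZero (∏ i, l i) := ⟨hf0⟩
  have : NeZero ((∏ i, l i : ℕ) : ℚ) := ⟨by exact_mod_cast hf0⟩
  have hcyc : IsCyclotomicExtension {∏ i, l i} ℚ (CyclotomicField (∏ i, l i) ℚ) :=
    CyclotomicField.isCyclotomicExtension (∏ i, l i) ℚ
  have hab : IsAbelianGalois ℚ (CyclotomicField (∏ i, l i) ℚ) :=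
    IsCyclotomicExtension.isAbelianGalois {∏ i, l i} ℚ (CyclotomicField (∏ i, l i) ℚ)
  have hcop : Pairwise (Function.onFun Nat.Coprime l) := by
    intro i j hij
    exact (Nat.coprime_primes (hl i) (hl j)).mpr fun h => hij (hinj h)
  choose ψ hψs hψ using fun i => exists_char (l i) (n i) (hl i) (hd i)
  let γ : (CyclotomicField (∏ i, l i) ℚ ≃ₐ[ℚ] CyclotomicField (∏ i, l i) ℚ) ≃*
      (ZMod (∏ i, l i))ˣ :=
    IsCyclotomicExtension.Rat.galEquivZMod (∏ i, l i) (CyclotomicField (∏ i, l i) ℚ)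
  let θ : (ZMod (∏ i, l i))ˣ ≃* ∀ i, (ZMod (l i))ˣ :=
    (Units.mapEquiv (ZMod.prodEquivPi l hcop).toMulEquiv).trans MulEquiv.piUnits
  have hθ : ∀ u i, ((θ u i : (ZMod (l i))ˣ) : ZMod (l i)) =
      ZMod.castHom (Finset.dvd_prod_of_mem l (Finset.mem_univ i)) _ (u : ZMod (∏ i, l i)) := by
    intro u i
    rw [← ZMod.prodEquivPi_apply l hcop]
    rfl
  let Ψ : (∀ i, (ZMod (l i))ˣ) →* Multiplicative (∀ i, ZMod (n i)) :=
    { toFun := fun u => Multiplicative.ofAdd fun i => (ψ i (u i)).toAdd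
      map_one' := by
        simp only [Pi.one_apply, map_one, toAdd_one]
        rfl
      map_mul' := by
        intro u v
        simp only [Pi.mul_apply, map_mul, toAdd_mul]
        rfl }
  have hΨ : Function.Surjective Ψ := by
    intro y
    choose u hu using fun i => hψs i (Multiplicative.ofAdd (y.toAdd i))
    refine ⟨u, ?_⟩
    change (Multiplicative.ofAdd fun i => (ψ i (u i)).toAdd) = y
    simp only [hu, toAdd_ofAdd]
    rfl
  let Φ : (CyclotomicField (∏ i, l i) ℚ ≃ₐ[ℚ] CyclotomicField (∏ i, l i) ℚ) →*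
      Multiplicative (∀ i, ZMod (n i)) := Ψ.comp (θ.toMonoidHom.comp γ.toMonoidHom)
  have hΦ : Function.Surjective Φ := by
    intro y
    obtain ⟨u, hu⟩ := hΨ y
    refine ⟨γ.symm (θ.symm u), ?_⟩
    simp only [Φ, MonoidHom.coe_comp, MulEquiv.toMonoidHom_eq_coe, MonoidHom.coe_coe,
      Function.comp_apply, MulEquiv.apply_symm_apply, hu]
  obtain ⟨K, h1, h2, h3, h4, h5⟩ := exists_fixed Φ hΦ fun g h =>
    (IsMulCommutative.is_comm (M := CyclotomicField (∏ i, l i) ℚ ≃ₐ[ℚ]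
      CyclotomicField (∏ i, l i) ℚ)).comm g h
  have hcA : Nat.card (Multiplicative (∀ i, ZMod (n i))) = ∏ i, n i := by
    rw [Nat.card_congr Multiplicative.toAdd, Nat.card_pi]
    simp only [Nat.card_zmod]
  refine ⟨K, h1, h2, h3.trans hcA, h4, ?_⟩
  intro r _ _ hr g hg x hx
  have hγ : ((γ g : (ZMod (∏ i, l i))ˣ) : ZMod (∏ i, l i)) = (r : ZMod (∏ i, l i)) := by
    have hζ := IsCyclotomicExtension.zeta_spec (∏ i, l i) ℚ (CyclotomicField (∏ i, l i) ℚ)
    have h1 := IsCyclotomicExtension.Rat.galEquivZMod_apply_of_pow_eq (∏ i, l i)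
      (CyclotomicField (∏ i, l i) ℚ) g hζ.pow_eq_one
    rw [hg _ hζ.pow_eq_one, (hζ.isOfFinOrder (NeZero.ne _)).pow_inj_mod, ← hζ.eq_orderOf,
      ← ZMod.natCast_eq_natCast_iff', ZMod.natCast_val, ZMod.cast_id] at h1
    exact h1.symm
  refine h5 g ?_ x hx
  change (Multiplicative.ofAdd fun i => (ψ i (θ (γ g) i)).toAdd) = 1
  have h2 : ∀ i, ψ i (θ (γ g) i) = 1 := by
    intro i
    refine hψ i _ (Units.ext ?_)
    rw [Units.val_pow_eq_pow_val, hθ, hγ, map_natCast, hr i, Units.val_one]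
  simp only [h2, toAdd_one]
  rfl

end Pool.Agent.K9h41.LD
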