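import Mathlib
import Pool.Agent.K9h41.LD.Df

/-!
# Splitting in subfields of cyclotomic fields (leaf SPL)
-/

set_option autoImplicit false

namespace Pool.Agent.K9h41.LD

open NumberField

/-- A field in which `x ^ r = x` holds identically has at most `r` elements. -/
private theorem card_le_of_pow_eq (F : Type) [Field F] [Finite F] (r : ℕ) (hr : 1 < r)
    (h : ∀ x : F, x ^ r = x) : Nat.card F ≤ r := by
  classical
  have := Fintype.ofFinite F
  have hne : (Polynomial.X ^ r - Polynomial.X : Polynomial F) ≠ 0 :=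
    FiniteField.X_pow_card_sub_X_ne_zero F hr
  have hsub : (Finset.univ : Finset F) ⊆
      (Polynomial.X ^ r - Polynomial.X : Polynomial F).roots.toFinset := by
    intro x _
    rw [Multiset.mem_toFinset, Polynomial.mem_roots hne]
    simp [Polynomial.IsRoot, h x]
  calc Nat.card F = (Finset.univ : Finset F).card := by
        rw [Nat.card_eq_fintype_card, Finset.card_univ]
    _ ≤ (Polynomial.X ^ r - Polynomial.X : Polynomial F).roots.toFinset.card :=
        Finset.card_le_card hsub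
    _ ≤ Multiset.card (Polynomial.X ^ r - Polynomial.X : Polynomial F).roots :=
        Multiset.toFinset_card_le _
    _ ≤ (Polynomial.X ^ r - Polynomial.X : Polynomial F).natDegree := Polynomial.card_roots' _
    _ = r := FiniteField.X_pow_card_sub_X_natDegree_eq F hr

/-- A prime number `r` which does not divide `f` splits completely in a subfield `K` of `ℚ(ζ_f)` on
which the automorphism `ζ ↦ ζ ^ r` is trivial. Proof idea: for a prime ideal `P` of `K` above `r` the
residue field is the one with `r` elements (choose `P'` above `P`; `σ_r x ≡ x ^ r` modulo `P'` for all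
integers `x` of `ℚ(ζ_f)`, as `ℤ[ζ_f]` is the ring of integers), so `x ^ r ≡ x` for `x ∈ 𝓞 K`), and
`e(P) = 1` because `r` is unramified in `ℚ(ζ_f)`; now use `∑ e f = [K : ℚ]`. -/
theorem splits_of_fixed (f : ℕ) [NeZero f] (K : IntermediateField ℚ (CyclotomicField f ℚ)) (r : ℕ)
    (hr : r.Prime) (hf : ¬ r ∣ f)
    (h : ∀ g : CyclotomicField f ℚ ≃ₐ[ℚ] CyclotomicField f ℚ,
      (∀ ζ, ζ ^ f = 1 → g ζ = ζ ^ r) → ∀ x ∈ K, g x = x) : SplitsCompletely K r := by
  classical
  have : Fact r.Prime := ⟨hr⟩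
  have : NeZero ((f : ℕ) : ℚ) := ⟨by exact_mod_cast NeZero.ne f⟩
  have : IsCyclotomicExtension {f} ℚ (CyclotomicField f ℚ) :=
    CyclotomicField.isCyclotomicExtension f ℚ
  have : IsAbelianGalois ℚ (CyclotomicField f ℚ) :=
    IsCyclotomicExtension.isAbelianGalois {f} ℚ (CyclotomicField f ℚ)
  have hab : @IsAbelianGalois ℚ K _ _ (IntermediateField.algebra' K) := inferInstance
  have hgal : IsGalois ℚ K := hab.toIsGalois
  have hmax : (Ideal.span {(r : ℤ)}).IsMaximal := Int.ideal_span_isMaximal_of_prime r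
  obtain ⟨⟨Q, hQ1, hQ2⟩⟩ := (Ideal.span {(r : ℤ)}).nonempty_primesOver (S := 𝓞 (CyclotomicField f ℚ))
  have hunder : Q.under ℤ = Ideal.span {(r : ℤ)} := hQ2.over.symm
  have hr0 : (r : ℤ) ≠ 0 := by exact_mod_cast hr.ne_zero
  have hpne : (Ideal.span {(r : ℤ)}) ≠ ⊥ := by
    simpa [Ideal.span_singleton_eq_bot] using hr0
  have hQne : Q ≠ ⊥ := Ideal.ne_bot_of_liesOver_of_ne_bot hpne Q
  have : Finite (𝓞 (CyclotomicField f ℚ) ⧸ Q) := Ideal.finiteQuotientOfFreeOfNeBot Q hQne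
  have hcard : Nat.card (ℤ ⧸ Q.under ℤ) = r := by
    rw [hunder, Nat.card_congr (Int.quotientSpanEquivZMod (r : ℤ)).toEquiv]
    simp
  -- a Frobenius element
  obtain ⟨σ, hσ⟩ := IsArithFrobAt.exists_of_isInvariant ℤ
    (CyclotomicField f ℚ ≃ₐ[ℚ] CyclotomicField f ℚ) Q
  have hfix : ∀ x ∈ K, σ x = x := by
    refine h σ ?_
    intro ζ hζ
    have hζi : IsIntegral ℤ ζ := by
      refine ⟨Polynomial.X ^ f - 1, Polynomial.monic_X_pow_sub_C 1 (NeZero.ne f), ?_⟩
      simp [hζ]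
    have hz : (⟨ζ, hζi⟩ : 𝓞 (CyclotomicField f ℚ)) ^ f = 1 := by
      ext
      simpa using hζ
    have hfQ : ((f : ℕ) : 𝓞 (CyclotomicField f ℚ)) ∉ Q := by
      intro hmem
      have h1 : (f : ℤ) ∈ Q.under ℤ := by
        rw [Ideal.mem_comap]
        simpa using hmem
      rw [hunder, Ideal.mem_span_singleton] at h1
      exact hf (by exact_mod_cast h1)
    have h2 := hσ.apply_of_pow_eq_one hz hfQ
    rw [hcard] at h2
    have h3 := congrArg (fun z : 𝓞 (CyclotomicField f ℚ) => (z : CyclotomicField f ℚ)) h2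
    exact h3
  -- the prime of `K` below
  have hP : ∀ x : 𝓞 K, x ^ r - x ∈ Q.under (𝓞 K) := by
    intro x
    have h1 := hσ (algebraMap (𝓞 K) (𝓞 (CyclotomicField f ℚ)) x)
    rw [hcard] at h1
    have h2 : (MulSemiringAction.toAlgHom ℤ (𝓞 (CyclotomicField f ℚ)) σ)
        (algebraMap (𝓞 K) (𝓞 (CyclotomicField f ℚ)) x) =
        algebraMap (𝓞 K) (𝓞 (CyclotomicField f ℚ)) x := by
      apply RingOfIntegers.ext
      exact hfix _ (x : K).2
    rw [h2] at h1
    rw [Ideal.mem_comap, map_sub, map_pow]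
    rw [← neg_mem_iff]
    simpa using h1
  have hPl : (Q.under (𝓞 K)).LiesOver (Ideal.span {(r : ℤ)}) := by
    constructor
    rw [Ideal.under_under, hunder]
  have hPprime : (Q.under (𝓞 K)).IsPrime := inferInstance
  have hPne : Q.under (𝓞 K) ≠ ⊥ := Ideal.ne_bot_of_liesOver_of_ne_bot hpne _
  have hPmax : (Q.under (𝓞 K)).IsMaximal := Ring.DimensionLEOne.maximalOfPrime hPne hPprime
  have hPfin : Finite (𝓞 K ⧸ Q.under (𝓞 K)) := Ideal.finiteQuotientOfFreeOfNeBot _ hPne
  have hcardP : Nat.card (𝓞 K ⧸ Q.under (𝓞 K)) ≤ r := by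
    let _ := Ideal.Quotient.field (Q.under (𝓞 K))
    apply card_le_of_pow_eq _ r hr.one_lt
    intro y
    obtain ⟨x, rfl⟩ := Ideal.Quotient.mk_surjective y
    rw [← map_pow, Ideal.Quotient.eq]
    exact hP x
  have hin : (Q.under (𝓞 K)).inertiaDeg ℤ = 1 := by
    have h1 := Ideal.absNorm_eq_pow_inertiaDeg' (Q.under (𝓞 K)) hr
    rw [Ideal.inertiaDeg'_eq_inertiaDeg] at h1
    have h2 : Ideal.absNorm (Q.under (𝓞 K)) = Nat.card (𝓞 K ⧸ Q.under (𝓞 K)) := rfl
    have h3 : r ^ (Q.under (𝓞 K)).inertiaDeg ℤ ≤ r ^ 1 := by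
      rw [← h1, h2, pow_one]
      exact hcardP
    have h4 := (Nat.pow_le_pow_iff_right hr.one_lt).1 h3
    have h5 := (Q.under (𝓞 K)).inertiaDeg_pos ℤ
    omega
  have hram : (Q.under (𝓞 K)).ramificationIdx ℤ = 1 := by
    have h1 := IsCyclotomicExtension.Rat.ramificationIdx_eq_of_not_dvd r (CyclotomicField f ℚ) Q
      (m := f) hf
    have h2 := Ideal.ramificationIdx_tower (R := ℤ) (Q.under (𝓞 K)) Q
    rw [h1] at h2
    exact Nat.eq_one_of_mul_eq_one_right h2.symm
  have hmain := Ideal.ncard_primesOver_mul_ramificationIdxIn_mul_inertiaDegIn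
    (Ideal.span {(r : ℤ)}) (𝓞 K) (K ≃ₐ[ℚ] K)
  rw [Ideal.ramificationIdxIn_eq_ramificationIdx (Ideal.span {(r : ℤ)}) (Q.under (𝓞 K))
    (K ≃ₐ[ℚ] K), Ideal.inertiaDegIn_eq_inertiaDeg (Ideal.span {(r : ℤ)}) (Q.under (𝓞 K))
    (K ≃ₐ[ℚ] K), hin, hram, mul_one, mul_one, IsGalois.card_aut_eq_finrank] at hmain
  exact hmain

end Pool.Agent.K9h41.LD
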