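import Mathlib
import Pool.Agent.K9h41.LD.Df

/-!
# Subfields of test fields, discriminants (leaf SUB)
-/

set_option autoImplicit false

namespace Pool.Agent.K9h41.LD

open NumberField

/-- in an abelian number field, the primes which split completely split completely in the
subfields -/
theorem split_sub {k K : Type} [Field k] [NumberField k] [Field K] [NumberField K] [Algebra k K]
    [IsAbelianGalois ℚ K] {r : ℕ} (hr : r.Prime) (h : SplitsCompletely K r) :
    SplitsCompletely k r := by
  classical
  have hk : IsAbelianGalois ℚ k := .tower_bot ℚ k K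
  have hKk : IsAbelianGalois k K := .tower_top ℚ k K
  unfold SplitsCompletely at h ⊢
  set p : Ideal ℤ := Ideal.span {(r : ℤ)} with hp
  have hpp : p.IsPrime := by
    rw [hp, Ideal.span_singleton_prime (by exact_mod_cast hr.ne_zero)]
    exact Nat.prime_iff_prime_int.mp hr
  have hp0 : p ≠ ⊥ := by
    rw [hp, Ne, Ideal.span_singleton_eq_bot]
    exact_mod_cast hr.ne_zero
  have hpm : p.IsMaximal := hpp.isMaximal hp0
  obtain ⟨⟨P, hP1, hP2⟩⟩ := (inferInstance : Nonempty (p.primesOver (𝓞 k)))
  have e1 := Ideal.ncard_primesOver_mul_ncard_primesOver (p := p) P Gal(k/ℚ) (𝓞 K) Gal(K/ℚ)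
  have e2 := Ideal.ncard_primesOver_mul_ramificationIdxIn_mul_inertiaDegIn p (𝓞 k) Gal(k/ℚ)
  have e3 := Ideal.ncard_primesOver_mul_ramificationIdxIn_mul_inertiaDegIn P (𝓞 K) Gal(K/k)
  rw [IsGalois.card_aut_eq_finrank] at e2 e3
  have e4 := Module.finrank_mul_finrank ℚ k K
  rw [h, ← e4, ← e2, ← e3] at e1
  have h1 : 0 < Module.finrank ℚ k := Module.finrank_pos
  have h2 : 0 < Module.finrank k K := Module.finrank_pos
  rw [← e2] at h1
  rw [← e3] at h2
  rw [← e2]
  generalize (p.primesOver (𝓞 k)).ncard = a at *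
  generalize (P.primesOver (𝓞 K)).ncard = b at *
  generalize p.ramificationIdxIn (𝓞 k) * p.inertiaDegIn (𝓞 k) = x at *
  generalize P.ramificationIdxIn (𝓞 K) * P.inertiaDegIn (𝓞 K) = y at *
  have ha : 0 < a := Nat.pos_of_ne_zero (by
    rintro h0; rw [h0, zero_mul] at h1; exact lt_irrefl _ h1)
  have hb : 0 < b := Nat.pos_of_ne_zero (by
    rintro h0; rw [h0, zero_mul] at h2; exact lt_irrefl _ h2)
  have hxy : x * y = 1 := by
    have : a * b * (x * y) = a * b * 1 := by
      rw [mul_one]
      calc a * b * (x * y) = a * x * (b * y) := by ring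
        _ = a * b := e1.symm
    exact Nat.eq_of_mul_eq_mul_left (Nat.mul_pos ha hb) this
  have hx : x = 1 := Nat.eq_one_of_mul_eq_one_right hxy
  rw [hx, mul_one]

/-- subfields of test fields are test fields, for a field which is embedded -/
theorem TestField.of_algebra {S : Set ℕ} {F₀ k K : Type} [Field F₀] [Field K] [NumberField K]
    [Field k] [NumberField k] [Algebra k K]
    (h : TestField S F₀ K) (hS : ∀ r ∈ S, r.Prime) :
    TestField S F₀ k := by
  have hab : IsAbelianGalois ℚ K :=
    { toIsGalois := h.galois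
      is_comm := ⟨h.comm⟩ }
  have hk : IsAbelianGalois ℚ k := .tower_bot ℚ k K
  have hreal := h.real
  refine ⟨inferInstance, fun g g' => hk.is_comm.comm g g', .of_algebra k K,
    fun r hr => split_sub (K := K) (hS r hr) (h.split r hr), fun T hT => ?_⟩
  obtain ⟨φ⟩ := hT
  let f : k →ₐ[ℚ] K := IsScalarTower.toAlgHom ℚ k K
  have h1 := h.disjoint (T.map f)
    ⟨φ.comp (IntermediateField.equivMap T f).symm.toRingEquiv.toRingHom⟩
  apply IntermediateField.map_injective f
  rw [h1, IntermediateField.map_bot]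

/-- subfields of test fields are test fields (for the splitting: `e = f = 1` for all primes of `K`
above `r`, so for all primes of `k`, and `∑ e f = [k : ℚ]`) -/
theorem TestField.sub {S : Set ℕ} {F₀ K : Type} [Field F₀] [Field K] [NumberField K]
    (h : TestField S F₀ K) (hS : ∀ r ∈ S, r.Prime) (k : IntermediateField ℚ K) :
    TestField S F₀ k :=
  TestField.of_algebra h hS

/-- a Galois number field of odd degree is totally real -/
theorem totallyReal_of_odd {K : Type} [Field K] [NumberField K] [IsGalois ℚ K]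
    (h : Odd (Module.finrank ℚ K)) : IsTotallyReal K := by
  have hu := IsUnramifiedAtInfinitePlaces_of_odd_finrank h
  refine ⟨fun w => ?_⟩
  rcases InfinitePlace.isUnramified_iff.1 (hu.isUnramified w) with h1 | h1
  · exact h1
  · exact absurd h1 (InfinitePlace.not_isComplex_iff_isReal.2
      (IsTotallyReal.isReal (K := ℚ) _))

/-- the discriminant of a subfield of `ℚ(ζ_f)` is only divisible by primes which divide `f` -/
theorem dvd_of_dvd_discr (f : ℕ) [NeZero f] (K : IntermediateField ℚ (CyclotomicField f ℚ)) {r : ℕ}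
    (hr : r.Prime) (h : (r : ℤ) ∣ discr K) : r ∣ f := by
  have h1 : (r : ℤ) ∣ discr (CyclotomicField f ℚ) :=
    h.trans (discr_dvd_discr K (CyclotomicField f ℚ))
  have h2 : r ∣ (discr (CyclotomicField f ℚ)).natAbs := Int.natCast_dvd.1 h1
  have hc : @IsCyclotomicExtension {f} ℚ (CyclotomicField f ℚ) _ _ DivisionRing.toRatAlgebra := by
    have h0 : @IsCyclotomicExtension {f} ℚ (CyclotomicField f ℚ) _ _ (CyclotomicField.algebra f ℚ) :=
      inferInstance
    have e : (DivisionRing.toRatAlgebra : Algebra ℚ (CyclotomicField f ℚ)) =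
      CyclotomicField.algebra f ℚ := Subsingleton.elim _ _
    rw [e]
    exact h0
  rw [IsCyclotomicExtension.Rat.natAbs_discr f] at h2
  exact hr.dvd_of_dvd_pow (h2.trans (Nat.div_dvd_of_dvd
    (Nat.prod_primeFactors_pow_totient_ediv_dvd (NeZero.pos f))))

/-- disjointness from the discriminants: a common subfield has a discriminant which divides both
(`NumberField.discr_dvd_discr`), so it is `± 1`, and Minkowski's theorem applies -/
theorem disjoint_of_discr {K F₀ : Type} [Field K] [NumberField K] [Field F₀] [NumberField F₀]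
    (h : ∀ r : ℕ, r.Prime → (r : ℤ) ∣ discr K → ¬ (r : ℤ) ∣ discr F₀) (T : IntermediateField ℚ K)
    (hT : Nonempty (T →+* F₀)) : T = ⊥ := by
  obtain ⟨φ⟩ := hT
  let _ : Algebra T F₀ := φ.toAlgebra
  by_contra hne
  have h1 : 1 < Module.finrank ℚ T := by
    refine Nat.one_lt_iff_ne_zero_and_ne_one.mpr ⟨Module.finrank_pos.ne', ?_⟩
    rwa [ne_eq, IntermediateField.finrank_eq_one_iff]
  have h2 := abs_discr_gt_two h1
  have h3 : (discr T).natAbs ≠ 1 := by
    intro h4
    rw [Int.abs_eq_natAbs, h4] at h2
    norm_num at h2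
  obtain ⟨r, hr, hrd⟩ := Nat.exists_prime_and_dvd h3
  have h4 : (r : ℤ) ∣ discr T := Int.natCast_dvd.2 hrd
  exact h r hr (h4.trans (discr_dvd_discr T K)) (h4.trans (discr_dvd_discr T F₀))

end Pool.Agent.K9h41.LD
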