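import Mathlib
import Pool.Agent.K9h41.LD.Df
import Pool.Agent.K9h41.LD.LeafSpl
import Pool.Agent.K9h41.LD.LeafSub
import Pool.Agent.K9h41.LD.LeafGal
import Pool.Agent.H884R2.Sko.Split

/-!
# Existence of test fields (leaf EXT)
-/

set_option autoImplicit false

namespace Pool.Agent.K9h41.LD

open NumberField

section

open Polynomial

/-- Primes `l ≡ 1` modulo `p` modulo which all `r ∈ S` are `p`-th powers: apply
`Pool.Agent.H884R2.Sko.exists_split` to the monic integer polynomial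
`(X ^ p - 1) * ∏ (X ^ p - r)`. -/
theorem exists_primes (p : ℕ) (hp : p.Prime) (S : Finset ℕ) (hS : ∀ r ∈ S, r.Prime) (B : ℕ) :
    ∃ l : ℕ, l.Prime ∧ B < l ∧ p ∣ l - 1 ∧ ∀ r ∈ S, (r : ZMod l) ^ ((l - 1) / p) = 1 := by
  classical
  have hp0 : p ≠ 0 := hp.ne_zero
  have hmon : ((X ^ p - C (1 : ℤ)) * ∏ r ∈ S, (X ^ p - C ((r : ℕ) : ℤ)) : ℤ[X]).Monic :=
    (monic_X_pow_sub_C _ hp0).mul (monic_prod_of_monic _ _ fun r _ => monic_X_pow_sub_C _ hp0)
  obtain ⟨l, hl, hB, hs⟩ := Pool.Agent.H884R2.Sko.exists_split _ hmon (B + p + ∑ r ∈ S, r)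
  have : Fact l.Prime := ⟨hl⟩
  have hdvd : ∀ a : ℤ, (X ^ p - C a : ℤ[X]) ∣
      ((X ^ p - C (1 : ℤ)) * ∏ r ∈ S, (X ^ p - C ((r : ℕ) : ℤ))) →
      (X ^ p - C (a : ZMod l) : (ZMod l)[X]).Splits := by
    intro a ha
    have h1 := Polynomial.map_dvd (Int.castRingHom (ZMod l)) ha
    have h2 := hs.of_dvd (hmon.map _).ne_zero h1
    simpa using h2
  have h1 : (X ^ p - 1 : (ZMod l)[X]).Splits := by
    have := hdvd 1 (Dvd.intro _ rfl)
    simpa using this
  have h2 : ∀ r ∈ S, (X ^ p - C ((r : ℕ) : ZMod l) : (ZMod l)[X]).Splits := by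
    intro r hr
    have := hdvd (r : ℤ) ((Finset.dvd_prod_of_mem _ hr).mul_left _)
    simpa using this
  have hpl : ((p : ℕ) : ZMod l) ≠ 0 := by
    rw [Ne, ZMod.natCast_eq_zero_iff]
    intro h
    have := Nat.le_of_dvd hp.pos h
    omega
  have hrl : ∀ r ∈ S, ((r : ℕ) : ZMod l) ≠ 0 := by
    intro r hr
    rw [Ne, ZMod.natCast_eq_zero_iff]
    intro h
    have h3 := Nat.le_of_dvd (hS r hr).pos h
    have h4 : r ≤ ∑ r ∈ S, r := Finset.single_le_sum (f := fun r => r) (fun _ _ => Nat.zero_le _) hr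
    omega
  have hdp : p ∣ l - 1 := by
    have hsep : (X ^ p - 1 : (ZMod l)[X]).Separable := X_pow_sub_one_separable_iff.2 hpl
    have hnd := nodup_roots hsep
    have hcard := h1.natDegree_eq_card_roots
    have hdeg : (X ^ p - 1 : (ZMod l)[X]).natDegree = p := by
      have := natDegree_X_pow_sub_C (R := ZMod l) (n := p) (r := 1)
      simpa using this
    have h5 : 1 < (X ^ p - 1 : (ZMod l)[X]).roots.toFinset.card := by
      rw [Multiset.toFinset_card_of_nodup hnd, ← hcard, hdeg]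
      exact hp.one_lt
    obtain ⟨x, hx, hx1⟩ := Finset.exists_mem_ne h5 1
    rw [Multiset.mem_toFinset] at hx
    have h6 := (mem_roots'.1 hx).2
    have h7 : x ^ p = 1 := by
      have : x ^ p - 1 = 0 := by simpa [IsRoot] using h6
      exact sub_eq_zero.1 this
    have hx0 : x ≠ 0 := by
      rintro rfl
      rw [zero_pow hp0] at h7
      exact zero_ne_one h7
    have : Fact p.Prime := ⟨hp⟩
    rw [← orderOf_eq_prime h7 hx1]
    exact ZMod.orderOf_dvd_card_sub_one hx0
  refine ⟨l, hl, by omega, hdp, fun r hr => ?_⟩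
  obtain ⟨x, hx⟩ := (h2 r hr).exists_eval_eq_zero (by
    rw [degree_X_pow_sub_C hp.pos]
    exact_mod_cast hp0)
  have h7 : x ^ p = (r : ZMod l) := by
    have : x ^ p - (r : ZMod l) = 0 := by simpa using hx
    exact sub_eq_zero.1 this
  have hx0 : x ≠ 0 := by
    rintro rfl
    rw [zero_pow hp0] at h7
    exact hrl r hr h7.symm
  rw [← h7, ← pow_mul, Nat.mul_div_cancel' hdp]
  exact ZMod.pow_card_sub_one_eq_one hx0

end

/-- The data of the Galois group which depend on the algebra structure over `ℚ`. -/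
private def Pack (K : Type) [Field K] [Algebra ℚ K] (d : ℕ) (A : Type) [Group A] : Prop :=
  IsGalois ℚ K ∧ (∀ g h : K ≃ₐ[ℚ] K, g * h = h * g) ∧ Module.finrank ℚ K = d ∧
    ∃ φ : (K ≃ₐ[ℚ] K) →* A, Function.Surjective φ

private theorem pack_rat {K : Type} [Field K] [CharZero K] {d : ℕ} {A : Type} [Group A]
    [i : Algebra ℚ K] (h : Pack K d A) : @Pack K _ DivisionRing.toRatAlgebra d A _ := by
  have e : i = DivisionRing.toRatAlgebra := Subsingleton.elim _ _
  rw [← e]
  exact h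

private theorem piEquiv (p q : ℕ) (hp : p ≠ 0) (hq : q ≠ 0) :
    Nonempty (Multiplicative (∀ i : Fin 4, ZMod (![p, p, q, q] i)) ≃*
      Multiplicative ((ZMod p × ZMod p) × (ZMod q × ZMod q))) := by
  have : NeZero p := ⟨hp⟩
  have : NeZero q := ⟨hq⟩
  let f : (∀ i : Fin 4, ZMod (![p, p, q, q] i)) →+ ((ZMod p × ZMod p) × (ZMod q × ZMod q)) :=
    { toFun := fun x => ((x 0, x 1), (x 2, x 3))
      map_zero' := rfl
      map_add' := fun x y => rfl }
  have hinj : Function.Injective f := by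
    intro x y hxy
    have h1 : f x = f y := hxy
    have h10 : x 0 = y 0 := congrArg (fun z => z.1.1) h1
    have h11 : x 1 = y 1 := congrArg (fun z => z.1.2) h1
    have h12 : x 2 = y 2 := congrArg (fun z => z.2.1) h1
    have h13 : x 3 = y 3 := congrArg (fun z => z.2.2) h1
    funext i
    fin_cases i
    · exact h10
    · exact h11
    · exact h12
    · exact h13
  have hcard : Nat.card ((ZMod p × ZMod p) × (ZMod q × ZMod q)) ≤
      Nat.card (∀ i : Fin 4, ZMod (![p, p, q, q] i)) := by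
    rw [Nat.card_pi]
    simp only [Nat.card_zmod, Nat.card_prod, Fin.prod_univ_four]
    apply le_of_eq
    change p * p * (q * q) = p * p * q * q
    ring
  have hbij := hinj.bijective_of_nat_card_le hcard
  exact ⟨AddEquiv.toMultiplicative (AddEquiv.ofBijective f hbij)⟩

/-- Existence of the field: four different primes `l i` from `exists_primes`, larger than all `r ∈ S`
and than `|discr F₀|`; then `exists_sub` with `n = ![p, p, q, q]`, `splits_of_fixed`,
`totallyReal_of_odd`, `dvd_of_dvd_discr` and `disjoint_of_discr`. -/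
theorem exists_test (p q : ℕ) (hp : p.Prime) (hq : q.Prime) (hp2 : p ≠ 2) (hq2 : q ≠ 2)
    (S : Finset ℕ) (hS : ∀ r ∈ S, r.Prime) (F₀ : Type) [Field F₀] [NumberField F₀] :
    ∃ (K : Type) (_ : Field K) (_ : NumberField K), TestField (S : Set ℕ) F₀ K ∧
      Module.finrank ℚ K = p ^ 2 * q ^ 2 ∧
      Nonempty ((K ≃ₐ[ℚ] K) ≃* Multiplicative ((ZMod p × ZMod p) × (ZMod q × ZMod q))) := by
  classical
  obtain ⟨l0, hl0, hB0, hd0, hr0⟩ := exists_primes p hp S hS (∑ r ∈ S, r + (discr F₀).natAbs)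
  obtain ⟨l1, hl1, hB1, hd1, hr1⟩ := exists_primes p hp S hS l0
  obtain ⟨l2, hl2, hB2, hd2, hr2⟩ := exists_primes q hq S hS l1
  obtain ⟨l3, hl3, hB3, hd3, hr3⟩ := exists_primes q hq S hS l2
  let l : Fin 4 → ℕ := ![l0, l1, l2, l3]
  let n : Fin 4 → ℕ := ![p, p, q, q]
  have hl : ∀ i, (l i).Prime := by
    intro i
    fin_cases i
    exacts [hl0, hl1, hl2, hl3]
  have hbig : ∀ i, ∑ r ∈ S, r + (discr F₀).natAbs < l i := by
    intro i
    fin_cases i
    · exact hB0
    · exact hB0.trans hB1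
    · exact (hB0.trans hB1).trans hB2
    · exact ((hB0.trans hB1).trans hB2).trans hB3
  have hinj : Function.Injective l := by
    intro i j hij
    fin_cases i <;> fin_cases j <;>
      first
      | rfl
      | (exfalso
         simp [l] at hij
         omega)
  have hn : ∀ i, (n i).Prime := by
    intro i
    fin_cases i
    exacts [hp, hp, hq, hq]
  have hd : ∀ i, n i ∣ l i - 1 := by
    intro i
    fin_cases i
    exacts [hd0, hd1, hd2, hd3]
  obtain ⟨K, hgal, hcomm, hfin, hφ, hfix⟩ := exists_sub l n hl hinj hn hd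
  have hpack : Pack K (∏ i, n i) (Multiplicative (∀ i, ZMod (n i))) := ⟨hgal, hcomm, hfin, hφ⟩
  have hpack' := pack_rat hpack
  obtain ⟨g1, g2, g3, φ, g4⟩ := hpack'
  have hprod : ∏ i, n i = p ^ 2 * q ^ 2 := by
    rw [Fin.prod_univ_four]
    change p * p * q * q = p ^ 2 * q ^ 2
    ring
  have hl0' : ∀ i, l i ≠ 0 := fun i => (hl i).ne_zero
  have hf0 : ∏ i, l i ≠ 0 := Finset.prod_ne_zero_iff.2 fun i _ => hl0' i
  have : NeZero (∏ i, l i) := ⟨hf0⟩
  have hrS : ∀ r ∈ S, ∀ i, r ≠ l i := by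
    intro r hr i h
    have h4 : r ≤ ∑ r ∈ S, r := Finset.single_le_sum (f := fun r => r) (fun _ _ => Nat.zero_le _) hr
    have := hbig i
    omega
  refine ⟨K, inferInstance, inferInstance, ⟨g1, g2, ?_, ?_, ?_⟩, ?_, ?_⟩
  · -- totally real
    have h1 : Odd (@Module.finrank ℚ K _ _ (@Algebra.toModule ℚ K _ _ DivisionRing.toRatAlgebra)) := by
      rw [g3, hprod]
      exact ((hp.odd_of_ne_two hp2).pow).mul ((hq.odd_of_ne_two hq2).pow)
    exact @totallyReal_of_odd K _ _ g1 h1
  · -- split primes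
    intro r hr
    have hr' : r ∈ S := by exact_mod_cast hr
    refine splits_of_fixed (∏ i, l i) K r (hS r hr') ?_ ?_
    · intro h
      obtain ⟨i, -, hi⟩ := ((hS r hr').prime.dvd_finsetProd_iff _).1 h
      exact hrS r hr' i ((Nat.prime_dvd_prime_iff_eq (hS r hr') (hl i)).1 hi)
    · refine hfix r (hS r hr') (hrS r hr') ?_
      intro i
      fin_cases i
      exacts [hr0 r hr', hr1 r hr', hr2 r hr', hr3 r hr']
  · -- disjoint
    intro T hT
    refine disjoint_of_discr ?_ T hT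
    intro r hr h h'
    have h2 := dvd_of_dvd_discr (∏ i, l i) K hr h
    obtain ⟨i, -, hi⟩ := (hr.prime.dvd_finsetProd_iff _).1 h2
    have h3 := (Nat.prime_dvd_prime_iff_eq hr (hl i)).1 hi
    have h4 : r ∣ (discr F₀).natAbs := Int.natCast_dvd.1 h'
    have h5 := Nat.le_of_dvd (Int.natAbs_pos.2 (discr_ne_zero F₀)) h4
    have := hbig i
    omega
  · rw [g3, hprod]
  · have hbij : Function.Bijective φ := by
      refine g4.bijective_of_nat_card_le ?_
      have e1 : Nat.card (Multiplicative (∀ i, ZMod (n i))) = ∏ i, n i := by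
        have : Nat.card (∀ i, ZMod (n i)) = ∏ i, n i := by
          rw [Nat.card_pi]
          simp only [Nat.card_zmod]
        exact this
      rw [e1, ← g3]
      exact (@IsGalois.card_aut_eq_finrank ℚ _ K _ DivisionRing.toRatAlgebra _ g1).le
    obtain ⟨e⟩ := piEquiv p q hp.ne_zero hq.ne_zero
    exact ⟨(MulEquiv.ofBijective φ hbij).trans e⟩

end Pool.Agent.K9h41.LD
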