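import Mathlib
import Pool.Agent.K9h41.DC.Mt

/-!
# The relation in a group with the quotients `(ℤ/p)²` and `(ℤ/q)²`
-/

set_option autoImplicit false
set_option linter.unusedSectionVars false

namespace Pool.Agent.K9h41.LD

open Pool.Agent.R389 Pool.Agent.K4H74.ST Pool.Agent.K4H74.SC Pool.Agent.K9h41.DC

section ker

variable {G : Type} [Group G] [Finite G]

/-- the permutation character of a normal subgroup -/
lemma ind_ker {A : Type} [Group A] [Finite A] {ψ : G →* A} (hψ : Function.Surjective ψ) (g : G)
    [Decidable (ψ g = 1)] :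
    ind ψ.ker (fun _ => (1 : ℂ)) g = if ψ g = 1 then (Nat.card A : ℂ) else 0 := by
  rw [ind_one, fx]
  have h1 : ∀ x : G ⧸ ψ.ker, g • x = x ↔ ψ g = 1 := by
    intro x
    obtain ⟨y, rfl⟩ := QuotientGroup.mk_surjective x
    rw [smul_coset_iff, MonoidHom.mem_ker, map_mul, map_mul, map_inv]
    constructor
    · intro h
      have h2 : ψ g = ψ y * ((ψ y)⁻¹ * ψ g * ψ y) * (ψ y)⁻¹ := by group
      rw [h2, h]
      group
    · intro h
      rw [h]
      group
  split_ifs with hg
  · have h2 : Nat.card {x : G ⧸ ψ.ker // g • x = x} = Nat.card (G ⧸ ψ.ker) :=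
      Nat.card_congr (Equiv.subtypeUnivEquiv fun x => (h1 x).mpr hg)
    have h3 : Nat.card (G ⧸ ψ.ker) = Nat.card A :=
      Nat.card_congr (QuotientGroup.quotientKerEquivOfSurjective ψ hψ).toEquiv
    rw [h2, h3]
  · have h2 : IsEmpty {x : G ⧸ ψ.ker // g • x = x} := ⟨fun x => hg ((h1 x.1).mp x.2)⟩
    rw [Nat.card_of_isEmpty, Nat.cast_zero]

lemma index_ker' {A : Type} [Group A] {ψ : G →* A} (hψ : Function.Surjective ψ) :
    ψ.ker.index = Nat.card A := by
  rw [Subgroup.index_ker, MonoidHom.range_eq_top.mpr hψ]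
  exact Nat.card_congr Subgroup.topEquiv.toEquiv

end ker

section plane

variable (p : ℕ)

/-- the functionals `(a, b) ↦ a + i b` and `(a, b) ↦ b` -/
def func : Option (ZMod p) → (ZMod p × ZMod p) →+ ZMod p
  | some i => (AddMonoidHom.fst _ _) + (AddMonoidHom.mulLeft i).comp (AddMonoidHom.snd _ _)
  | none => AddMonoidHom.snd _ _

lemma func_some (i : ZMod p) (x : ZMod p × ZMod p) : func p (some i) x = x.1 + i * x.2 := rfl

lemma func_none (x : ZMod p × ZMod p) : func p none x = x.2 := rfl

lemma func_surj (o : Option (ZMod p)) : Function.Surjective (func p o) := by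
  cases o with
  | none => exact fun y => ⟨(0, y), rfl⟩
  | some i => exact fun y => ⟨(y, 0), by rw [func_some]; simp⟩

variable {p} [Fact p.Prime]

/-- the number of the lines through a point -/
lemma count (x : ZMod p × ZMod p) [DecidableEq (ZMod p × ZMod p)] :
    ∑ o : Option (ZMod p), (if func p o x = 0 then (p : ℂ) else 0)
      - (if x = 0 then (p : ℂ) ^ 2 else 0) = p := by
  classical
  obtain ⟨a, b⟩ := x
  rw [Fintype.sum_option]
  simp only [func_none, func_some]
  by_cases hb : b = 0
  · subst hb
    simp only [mul_zero, add_zero, if_true]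
    by_cases ha : a = 0
    · subst ha
      simp only [if_true, Prod.mk_zero_zero]
      rw [Finset.sum_const, Finset.card_univ, ZMod.card, nsmul_eq_mul]
      ring
    · have h1 : ((a, (0 : ZMod p)) : ZMod p × ZMod p) ≠ 0 := by
        intro h
        exact ha (congrArg Prod.fst h)
      simp only [if_neg ha, if_neg h1]
      simp
  · have h1 : ((a, b) : ZMod p × ZMod p) ≠ 0 := by
      intro h
      exact hb (congrArg Prod.snd h)
    simp only [hb, h1, if_false]
    have h2 : ∀ i : ZMod p, a + i * b = 0 ↔ i = -a / b := by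
      intro i
      rw [eq_div_iff hb]
      constructor
      · intro h
        linear_combination h
      · intro h
        linear_combination h
    simp only [h2]
    rw [Finset.sum_ite_eq' Finset.univ (-a / b) (fun _ => (p : ℂ))]
    simp

end plane

section rel

variable {G : Type} [Group G] [Finite G] {p : ℕ} [Fact p.Prime]

/-- a homomorphism to an additive group followed by an additive homomorphism -/
def cmp {A B : Type} [AddCommGroup A] [AddCommGroup B] (f : G →* Multiplicative A) (u : A →+ B) :
    G →* Multiplicative B := (AddMonoidHom.toMultiplicative u).comp f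

lemma cmp_surj {A B : Type} [AddCommGroup A] [AddCommGroup B] {f : G →* Multiplicative A}
    {u : A →+ B} (hf : Function.Surjective f) (hu : Function.Surjective u) :
    Function.Surjective (cmp f u) := by
  intro y
  obtain ⟨a, ha⟩ := hu y.toAdd
  obtain ⟨g, hg⟩ := hf (Multiplicative.ofAdd a)
  refine ⟨g, ?_⟩
  change Multiplicative.ofAdd (u (f g).toAdd) = y
  rw [hg, toAdd_ofAdd, ha, ofAdd_toAdd]

/-- the relation for one prime -/
lemma rel_p {f : G →* Multiplicative (ZMod p × ZMod p)} (hf : Function.Surjective f) (g : G) :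
    ∑ o : Option (ZMod p), ind (cmp f (func p o)).ker (fun _ => (1 : ℂ)) g
      - ind f.ker (fun _ => (1 : ℂ)) g = p := by
  classical
  have hc1 : Nat.card (Multiplicative (ZMod p)) = p := Nat.card_zmod p
  have hc2 : Nat.card (Multiplicative (ZMod p × ZMod p)) = p ^ 2 := by
    change Nat.card (ZMod p × ZMod p) = p ^ 2
    rw [Nat.card_prod, Nat.card_zmod, sq]
  have h1 : ∀ o : Option (ZMod p), ind (cmp f (func p o)).ker (fun _ => (1 : ℂ)) g
      = if func p o (f g).toAdd = 0 then (p : ℂ) else 0 := by
    intro o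
    rw [ind_ker (cmp_surj hf (func_surj p o)) g, hc1]
    rfl
  have h2 : ind f.ker (fun _ => (1 : ℂ)) g = if (f g).toAdd = 0 then (p : ℂ) ^ 2 else 0 := by
    rw [ind_ker hf g, hc2]
    push_cast
    rfl
  rw [Finset.sum_congr rfl (fun o _ => h1 o), h2]
  exact count _

open Classical in
/-- the coefficients for one prime -/
noncomputable def cf (f : G →* Multiplicative (ZMod p × ZMod p)) (U : Subgroup G) : ℤ :=
  ∑ o : Option (ZMod p), (if (cmp f (func p o)).ker = U then 1 else 0) - if f.ker = U then 1 else 0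

lemma cf_sum (f : G →* Multiplicative (ZMod p × ZMod p)) [Fintype (Subgroup G)]
    (F : Subgroup G → ℂ) : ∑ U, (cf f U : ℂ) * F U
      = ∑ o : Option (ZMod p), F (cmp f (func p o)).ker - F f.ker := by
  classical
  simp only [cf]
  push_cast
  simp only [sub_mul, Finset.sum_mul, ite_mul, one_mul, zero_mul, Finset.sum_sub_distrib]
  rw [Finset.sum_comm]
  simp

lemma cf_index {f : G →* Multiplicative (ZMod p × ZMod p)} (hf : Function.Surjective f)
    {U : Subgroup G} (hU : cf f U ≠ 0) : U.index = p ∨ U.index = p ^ 2 := by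
  classical
  by_cases h1 : f.ker = U
  · right
    rw [← h1, index_ker' hf]
    change Nat.card (ZMod p × ZMod p) = p ^ 2
    rw [Nat.card_prod, Nat.card_zmod, sq]
  · left
    by_contra h2
    apply hU
    rw [cf, if_neg h1, sub_zero]
    refine Finset.sum_eq_zero fun o _ => ?_
    rw [if_neg]
    intro h3
    apply h2
    rw [← h3, index_ker' (cmp_surj hf (func_surj p o))]
    exact Nat.card_zmod p

/-- **the relation** -/
theorem exists_rel {q : ℕ} [Fact q.Prime] (hpq : p ≠ q)
    {f : G →* Multiplicative (ZMod p × ZMod p)} (hf : Function.Surjective f)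
    {f' : G →* Multiplicative (ZMod q × ZMod q)} (hf' : Function.Surjective f')
    [Fintype (Subgroup G)] : ∃ c : Subgroup G → ℤ,
      (∀ U, c U ≠ 0 → U.index = p ∨ U.index = p ^ 2 ∨ U.index = q ∨ U.index = q ^ 2) ∧
      ∀ g : G, ∑ U, (c U : ℂ) * ind U (fun _ => (1 : ℂ)) g = 1 := by
  have hp : p.Prime := Fact.out
  have hq : q.Prime := Fact.out
  have hco : IsCoprime (p : ℤ) (q : ℤ) :=
    Nat.isCoprime_iff_coprime.mpr ((Nat.coprime_primes hp hq).mpr hpq)
  obtain ⟨a, b, hab⟩ := hco
  refine ⟨fun U => a * cf f U + b * cf f' U, fun U hU => ?_, fun g => ?_⟩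
  · by_cases h1 : cf f U = 0
    · have h2 : cf f' U ≠ 0 := by
        intro h0
        apply hU
        change a * cf f U + b * cf f' U = 0
        rw [h1, h0]
        simp
      rcases cf_index hf' h2 with h3 | h3
      · exact Or.inr (Or.inr (Or.inl h3))
      · exact Or.inr (Or.inr (Or.inr h3))
    · rcases cf_index hf h1 with h3 | h3
      · exact Or.inl h3
      · exact Or.inr (Or.inl h3)
  · have h1 := cf_sum f (fun U => ind U (fun _ => (1 : ℂ)) g)
    have h2 := cf_sum f' (fun U => ind U (fun _ => (1 : ℂ)) g)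
    have e1 := rel_p hf g
    have e2 := rel_p hf' g
    have h3 : ∑ U, ((a * cf f U + b * cf f' U : ℤ) : ℂ) * ind U (fun _ => (1 : ℂ)) g
        = a * ∑ U, (cf f U : ℂ) * ind U (fun _ => (1 : ℂ)) g
          + b * ∑ U, (cf f' U : ℂ) * ind U (fun _ => (1 : ℂ)) g := by
      rw [Finset.mul_sum, Finset.mul_sum, ← Finset.sum_add_distrib]
      refine Finset.sum_congr rfl fun U _ => ?_
      push_cast
      ring
    rw [h3, h1, h2, e1, e2]
    exact_mod_cast hab

end rel

end Pool.Agent.K9h41.LD
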