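import Mathlib
import Pool.Agent.K9h41.DC.Nv
import Pool.Agent.K9h41.LD.Rel

/-!
# Deligne's conjecture from the subfields of degree `p`, `p²`, `q`, `q²`
-/

set_option autoImplicit false
set_option linter.unusedSectionVars false

namespace Pool.Agent.K9h41.LD

open NumberField NumberField.InfinitePlace IntermediateField IsDedekindDomain Filter Topology
  Pool.Agent.R389 Pool.Agent.K4H74.ST Pool.Agent.K4H74.SC Pool.Agent.K9h41.DC

variable {E : Type} [Field E] [NumberField E] (D : MotiveData E)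

/-- the value at `m` predicted for `M` at `ι` -/
noncomputable def per (ι : E →+* ℂ) (m : ℤ) : ℂ :=
  (2 * Real.pi * Complex.I) ^ (m * D.n) * D.period ι m

lemma per_ne (ι : E →+* ℂ) (m : ℤ) : per D ι m ≠ 0 :=
  mul_ne_zero (zpow_ne_zero _ Complex.two_pi_I_ne_zero) (period_ne D ι m)

variable {K : Type} [Field K] [NumberField K] [IsGalois ℚ K]

theorem assemble_simple [Fintype (Subgroup (K ≃ₐ[ℚ] K))] {c : Subgroup (K ≃ₐ[ℚ] K) → ℤ}
    (hc : ∀ g : K ≃ₐ[ℚ] K, ∑ U, (c U : ℂ) * ind U (fun _ => (1 : ℂ)) g = 1) {m : ℤ}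
    (h : ∀ U : Subgroup (K ≃ₐ[ℚ] K), c U ≠ 0 → ∃ e : E, e ≠ 0 ∧ ∀ ι : E →+* ℂ,
      HasLValue D ι (fixedField U) m
        (ι e * per D ι m ^ Module.finrank ℚ (fixedField U))) :
    ∃ e : E, e ≠ 0 ∧ ∀ ι : E →+* ℂ, HasLValue D ι ℚ m (ι e * per D ι m) := by
  classical
  let φ : K →ₐ[ℚ] ℂ := IsAlgClosed.lift
  have hc2 : ∀ g : K ≃ₐ[ℚ] K, ∑ U, (c U : ℂ) * ind U (fun _ => (1 : ℂ)) g
      = ind (⊤ : Subgroup (K ≃ₐ[ℚ] K)) (fun _ => (1 : ℂ)) g := by
    intro g
    rw [hc g, Pool.Agent.K9h41.DC.ind_top]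
  have hdeg : ∑ U, c U * (Module.finrank ℚ (fixedField U) : ℤ) = 1 := by
    have h1 := hc 1
    simp only [ind_one, (match_fixed φ _).deg] at h1
    exact_mod_cast h1
  have h' : ∀ U : Subgroup (K ≃ₐ[ℚ] K), ∃ e : E, e ≠ 0 ∧ (c U ≠ 0 → ∀ ι : E →+* ℂ,
      HasLValue D ι (fixedField U) m
        (ι e * per D ι m ^ Module.finrank ℚ (fixedField U))) := by
    intro U
    by_cases hU : c U = 0
    · exact ⟨1, one_ne_zero, fun h0 => absurd hU h0⟩
    · obtain ⟨e, he, h1⟩ := h U hU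
      exact ⟨e, he, fun _ => h1⟩
  choose e he hval using h'
  refine ⟨∏ U, e U ^ c U, Finset.prod_ne_zero_iff.mpr fun U _ => zpow_ne_zero _ (he U),
    fun ι => ?_⟩
  have h2 : ∀ U : Subgroup (K ≃ₐ[ℚ] K), ∃ f : ℂ → ℂ, c U ≠ 0 →
      (∀ s : ℂ, (m : ℝ) ≤ s.re → MeromorphicAt f s) ∧
      (∀ s : ℂ, 1 + (D.w : ℝ) / 2 < s.re →
        HasProd (fun v => eulerFactor D ι (fixedField U) v s) (f s)) ∧
      Tendsto f (𝓝[≠] (m : ℂ))
        (𝓝 (ι (e U) * per D ι m ^ Module.finrank ℚ (fixedField U))) := by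
    intro U
    by_cases hU : c U = 0
    · exact ⟨0, fun h0 => absurd hU h0⟩
    · obtain ⟨f, hf⟩ := hval U hU ι
      exact ⟨f, fun _ => hf⟩
  choose f hf using h2
  refine ⟨fun s => ∏ U, f U s ^ c U, fun s hs => ?_, fun s hs => ?_, ?_⟩
  · refine MeromorphicAt.fun_prod fun U _ => ?_
    by_cases hU : c U = 0
    · simp only [hU, zpow_zero]
      exact MeromorphicAt.const 1 s
    · exact ((hf U hU).1 s hs).fun_zpow _
  · have h3 : ∏ U, f U s ^ c U = Complex.exp (lg D ι ℚ s) := by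
      rw [← lg_rel D (match_rat φ) hc2 ι hs, Complex.exp_sum]
      refine Finset.prod_congr rfl fun U _ => ?_
      by_cases hU : c U = 0
      · rw [hU]
        simp
      · rw [((hf U hU).2.1 s hs).unique (hasProd_euler D ι hs), ← Complex.exp_int_mul]
    change HasProd _ (∏ U, f U s ^ c U)
    rw [h3]
    exact hasProd_euler D ι hs
  · have hp := per_ne D ι m
    have h4 : Tendsto (fun s => ∏ U, f U s ^ c U) (𝓝[≠] (m : ℂ)) (𝓝 (∏ U, (ι (e U) *
        per D ι m ^ Module.finrank ℚ (fixedField U)) ^ c U)) := by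
      refine tendsto_finsetProd _ fun U _ => ?_
      by_cases hU : c U = 0
      · simp only [hU, zpow_zero]
        exact tendsto_const_nhds
      · refine ((hf U hU).2.2).zpow₀ _ (Or.inl ?_)
        refine mul_ne_zero ?_ (pow_ne_zero _ hp)
        rw [map_ne_zero]
        exact he U
    convert h4 using 2
    simp only [mul_zpow]
    rw [Finset.prod_mul_distrib, prod_zpow_nat _ hp _ _ (r := 1) (by exact_mod_cast hdeg), pow_one,
      map_prod]
    simp only [map_zpow₀]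

lemma finrank_index (U : Subgroup (K ≃ₐ[ℚ] K)) : Module.finrank ℚ (fixedField U) = U.index := by
  rw [← card_quot U]
  rfl

/-- Deligne's conjecture from the subfields of degree `p`, `p²`, `q`, `q²` of one field -/
theorem main_ld {p q : ℕ} (hp : p.Prime) (hq : q.Prime) (hpq : p ≠ q)
    (hG : Nonempty ((K ≃ₐ[ℚ] K) ≃* Multiplicative ((ZMod p × ZMod p) × (ZMod q × ZMod q))))
    (m : ℤ)
    (h : ∀ k : IntermediateField ℚ K, Module.finrank ℚ k ∈ ({p, p ^ 2, q, q ^ 2} : Set ℕ) →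
      (∃ e : E, ∀ ι : E →+* ℂ, HasLValue D ι k m (ι e * per D ι m ^ Module.finrank ℚ k)) ∧
      ((m : ℝ) ≤ 1 + (D.w : ℝ) / 2 → ∃ ι : E →+* ℂ, ¬ HasLValue D ι k m 0)) :
    ∃ e : E, e ≠ 0 ∧ ∀ ι : E →+* ℂ, HasLValue D ι ℚ m (ι e * per D ι m) := by
  classical
  have : Fact p.Prime := ⟨hp⟩
  have : Fact q.Prime := ⟨hq⟩
  have : Fintype (Subgroup (K ≃ₐ[ℚ] K)) := Fintype.ofFinite _
  obtain ⟨g⟩ := hG
  let f : (K ≃ₐ[ℚ] K) →* Multiplicative (ZMod p × ZMod p) :=
    (AddMonoidHom.toMultiplicative (AddMonoidHom.fst _ _)).comp g.toMonoidHom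
  let f' : (K ≃ₐ[ℚ] K) →* Multiplicative (ZMod q × ZMod q) :=
    (AddMonoidHom.toMultiplicative (AddMonoidHom.snd _ _)).comp g.toMonoidHom
  have hf : Function.Surjective f := by
    intro y
    obtain ⟨x, hx⟩ := g.surjective (Multiplicative.ofAdd (y.toAdd, 0))
    refine ⟨x, ?_⟩
    change Multiplicative.ofAdd (g x).toAdd.1 = y
    rw [hx]
    rfl
  have hf' : Function.Surjective f' := by
    intro y
    obtain ⟨x, hx⟩ := g.surjective (Multiplicative.ofAdd (0, y.toAdd))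
    refine ⟨x, ?_⟩
    change Multiplicative.ofAdd (g x).toAdd.2 = y
    rw [hx]
    rfl
  obtain ⟨c, hc1, hc2⟩ := exists_rel hpq hf hf'
  refine assemble_simple D hc2 fun U hU => ?_
  have hk := h (fixedField U) (by
    rw [finrank_index]
    simpa using hc1 U hU)
  obtain ⟨⟨e, he⟩, hN⟩ := hk
  refine ⟨e, ?_, he⟩
  rintro rfl
  have h3 : ∃ ι : E →+* ℂ, ¬ HasLValue D ι (fixedField U) m 0 := by
    rcases le_or_gt (m : ℝ) (1 + (D.w : ℝ) / 2) with h4 | h4
    · exact hN h4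
    · obtain ⟨ι⟩ : Nonempty (E →+* ℂ) := inferInstance
      exact ⟨ι, not_zero D ι h4⟩
  obtain ⟨ι, hι⟩ := h3
  apply hι
  have h4 := he ι
  rwa [map_zero, zero_mul] at h4

end Pool.Agent.K9h41.LD
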